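import Pool.Agent.Y166.CS.Stm3

/-!
# CS-MULT: the multiplicity of a root is visible in the Jacobian ideal (helper500)
-/

set_option autoImplicit false

namespace Pool.Agent.Y500.CS

open MvPolynomial
open Pool.Agent.Results.MP_c4712b_ag.ManyNodesFamily (Poly3 surf eval_aeval_X0)
open Pool.Agent.Y166.CS (Jac)

theorem pd_surf (f : Polynomial ℂ) (k : ℕ) :
    pderiv 0 (surf f k) = Polynomial.aeval (X 0 : Poly3) f.derivative * X 2 ∧
    pderiv 1 (surf f k) = -((k : Poly3) * X 1 ^ (k - 1)) ∧
    pderiv 2 (surf f k) = Polynomial.aeval (X 0 : Poly3) f := by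
  have h10 : pderiv (1 : Fin 3) (X 0 : Poly3) = 0 := pderiv_X_of_ne (by decide)
  have h20 : pderiv (2 : Fin 3) (X 0 : Poly3) = 0 := pderiv_X_of_ne (by decide)
  have h01 : pderiv (0 : Fin 3) (X 1 : Poly3) = 0 := pderiv_X_of_ne (by decide)
  have h21 : pderiv (2 : Fin 3) (X 1 : Poly3) = 0 := pderiv_X_of_ne (by decide)
  have h02 : pderiv (0 : Fin 3) (X 2 : Poly3) = 0 := pderiv_X_of_ne (by decide)
  have h12 : pderiv (1 : Fin 3) (X 2 : Poly3) = 0 := pderiv_X_of_ne (by decide)
  have hd : ∀ i : Fin 3, pderiv i (Polynomial.aeval (X 0 : Poly3) f) =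
      Polynomial.aeval (X 0 : Poly3) f.derivative * pderiv i (X 0 : Poly3) := by
    intro i
    rw [Derivation.map_aeval, smul_eq_mul]
  refine ⟨?_, ?_, ?_⟩
  · simp only [surf, map_sub, Derivation.leibniz, Derivation.leibniz_pow, hd, h01, h02,
      pderiv_X_self, smul_eq_mul]
    simp
    ring
  · simp only [surf, map_sub, Derivation.leibniz, Derivation.leibniz_pow, hd, h10, h12,
      pderiv_X_self, smul_eq_mul]
    simp
  · simp only [surf, map_sub, Derivation.leibniz, Derivation.leibniz_pow, hd, h20, h21,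
      pderiv_X_self, smul_eq_mul]
    simp

/-- the substitution -/
noncomputable def ss (z : ℂ) : Poly3 →ₐ[ℂ] Polynomial ℂ :=
  MvPolynomial.aeval ![Polynomial.X, 0, Polynomial.C z]

theorem ss_X0 (z : ℂ) : ss z (X 0) = Polynomial.X := by
  unfold ss
  rw [aeval_X]
  rfl

theorem ss_X1 (z : ℂ) : ss z (X 1) = 0 := by
  unfold ss
  rw [aeval_X]
  rfl

theorem ss_X2 (z : ℂ) : ss z (X 2) = Polynomial.C z := by
  unfold ss
  rw [aeval_X]
  rfl

theorem ss_aeval (z : ℂ) (f : Polynomial ℂ) : ss z (Polynomial.aeval (X 0 : Poly3) f) = f := by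
  rw [← Polynomial.aeval_algHom_apply, ss_X0, Polynomial.aeval_X_left_apply]

theorem eval_ss (c z : ℂ) (h : Poly3) : (ss z h).eval c = eval ![c, 0, z] h := by
  induction h using MvPolynomial.induction_on with
  | C a =>
    unfold ss
    simp
  | add p q hp hq => simp only [map_add, Polynomial.eval_add, hp, hq]
  | mul_X p i hp =>
    rw [map_mul, Polynomial.eval_mul, hp, map_mul, eval_X]
    congr 1
    fin_cases i
    · show (ss z (X 0)).eval c = c
      rw [ss_X0, Polynomial.eval_X]
    · show (ss z (X 1)).eval c = 0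
      rw [ss_X1, Polynomial.eval_zero]
    · show (ss z (X 2)).eval c = z
      rw [ss_X2, Polynomial.eval_C]

theorem done : Pool.Agent.Y166.CS.S_MULT := by
  intro f hf k hk c hc
  obtain ⟨f1, hf1, hnd⟩ := Polynomial.exists_eq_pow_rootMultiplicity_mul_and_not_dvd f hf c
  have hm : 0 < f.rootMultiplicity c := (Polynomial.rootMultiplicity_pos hf).2 hc
  obtain ⟨n, hn⟩ : ∃ n, f.rootMultiplicity c = n + 1 := ⟨f.rootMultiplicity c - 1, by omega⟩
  rw [hn] at hf1
  rw [hn]
  have hf1c : f1.eval c ≠ 0 := fun h => hnd (Polynomial.dvd_iff_isRoot.2 h)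
  obtain ⟨g, hg⟩ : ∃ g : Polynomial ℂ, g = Polynomial.C ((n : ℂ) + 1) * f1 +
      (Polynomial.X - Polynomial.C c) * f1.derivative := ⟨_, rfl⟩
  have hgc : g.eval c ≠ 0 := by
    rw [hg]
    simp only [Polynomial.eval_add, Polynomial.eval_mul, Polynomial.eval_C, Polynomial.eval_sub,
      Polynomial.eval_X, sub_self, zero_mul, add_zero]
    refine mul_ne_zero ?_ hf1c
    exact_mod_cast Nat.succ_ne_zero n
  have hder : f.derivative = (Polynomial.X - Polynomial.C c) ^ n * g := by
    rw [hf1, hg, Polynomial.derivative_mul, Polynomial.derivative_X_sub_C_pow]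
    rw [Nat.add_sub_cancel, pow_succ]
    simp only [Nat.cast_add, Nat.cast_one, map_add, map_one, Polynomial.C_eq_natCast]
    ring
  have hff : f = (Polynomial.X - Polynomial.C c) ^ n * ((Polynomial.X - Polynomial.C c) * f1) := by
    rw [← mul_assoc, ← pow_succ]
    exact hf1
  obtain ⟨p0, p1, p2⟩ := pd_surf f k
  refine ⟨?_, ?_⟩
  · intro h j z hmem hne
    have hJ : Jac (surf f k) ≤ (Ideal.span {(Polynomial.X - Polynomial.C c) ^ n}).comap
        (ss z).toRingHom := by
      unfold Jac
      rw [Ideal.span_le]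
      rintro r (rfl | ⟨i, rfl⟩)
      · rw [SetLike.mem_coe, Ideal.mem_comap, Ideal.mem_span_singleton]
        show _ ∣ ss z (surf f k)
        have : ss z (surf f k) = f * Polynomial.C z := by
          unfold surf
          rw [map_sub, map_mul, map_pow, ss_aeval, ss_X1, ss_X2, zero_pow (by omega), sub_zero]
        rw [this, hff, mul_assoc]
        exact dvd_mul_right _ _
      · rw [SetLike.mem_coe, Ideal.mem_comap, Ideal.mem_span_singleton]
        show _ ∣ ss z (pderiv i (surf f k))
        fin_cases i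
        · show _ ∣ ss z (pderiv 0 (surf f k))
          rw [p0, map_mul, ss_aeval, hder, mul_assoc]
          exact dvd_mul_right _ _
        · show _ ∣ ss z (pderiv 1 (surf f k))
          rw [p1, map_neg, map_mul, map_pow, ss_X1, zero_pow (by omega), mul_zero, neg_zero]
          exact dvd_zero _
        · show _ ∣ ss z (pderiv 2 (surf f k))
          rw [p2, ss_aeval, hff]
          exact dvd_mul_right _ _
    have h1 := hJ hmem
    rw [Ideal.mem_comap, Ideal.mem_span_singleton] at h1
    have h2 : (Polynomial.X - Polynomial.C c) ^ n ∣ ss z h * (Polynomial.X - Polynomial.C c) ^ j := by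
      have h3 : (ss z).toRingHom (h * (X 0 - C c) ^ j) =
          ss z h * (Polynomial.X - Polynomial.C c) ^ j := by
        show ss z (h * (X 0 - C c) ^ j) = _
        rw [map_mul, map_pow, map_sub, ss_X0]
        congr 3
        unfold ss
        rw [aeval_C]
        rfl
      rwa [h3] at h1
    by_contra hcon
    have hjn : j + 1 ≤ n := by omega
    have h3 := (pow_dvd_pow (Polynomial.X - Polynomial.C c) hjn).trans h2
    rw [pow_succ', mul_comm (ss z h), mul_comm (Polynomial.X - Polynomial.C c)] at h3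
    have h4 : (Polynomial.X - Polynomial.C c) ∣ ss z h :=
      (mul_dvd_mul_iff_left (pow_ne_zero j (Polynomial.X_sub_C_ne_zero c))).1 h3
    have h5 : (ss z h).eval c = 0 := Polynomial.dvd_iff_isRoot.1 h4
    rw [eval_ss] at h5
    exact hne h5
  · refine ⟨Polynomial.aeval (X 0 : Poly3) g * X 2, ?_, ?_⟩
    · have h1 : Polynomial.aeval (X 0 : Poly3) g * X 2 * (X 0 - C c) ^ (n + 1 - 1) =
          pderiv 0 (surf f k) := by
        rw [p0, hder, Nat.add_sub_cancel, map_mul, map_pow, map_sub, Polynomial.aeval_X,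
          Polynomial.aeval_C]
        have : algebraMap ℂ Poly3 c = C c := rfl
        rw [this]
        ring
      rw [h1]
      exact Ideal.subset_span (Or.inr ⟨0, rfl⟩)
    · intro z hz
      rw [map_mul, eval_aeval_X0, eval_X]
      exact mul_ne_zero hgc hz

end Pool.Agent.Y500.CS
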